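import Pool.Agent.H77.KG.Targets

/-!
Rows FCJ and IRR of the board kgr_modules.
-/

set_option autoImplicit false

open Set Pool.Agent.H77.BC Pool.Agent.H77.BD Pool.Agent.H77.KG Pool.Agent.H77.BCP

namespace Pool.Agent.H42.KG

theorem pf_FCJ : T_FCJ := by
  intro M U Γ _ _ _ H x hc hf g hg
  have hC : U.D ((Subgroup.centralizer {x} : Subgroup Γ) : Set Γ) := by
    have h : U.D {g : Γ | g * x = x * g} :=
      D_eqf (DFn_gmul DFn_id (DFn_const x)) (DFn_gmul (DFn_const x) DFn_id)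
    have e : ((Subgroup.centralizer {x} : Subgroup Γ) : Set Γ) = {g : Γ | g * x = x * g} := by
      ext g
      simp only [SetLike.mem_coe, mem_ofPred_eq]
      exact Subgroup.mem_centralizer_singleton_iff
    rw [e]
    exact h
  have hL : U.D ((H ⊓ Subgroup.centralizer {x} : Subgroup Γ) : Set Γ) := by
    rw [Subgroup.coe_inf]
    exact D_inter hc.1 hC
  have hφ : DFn U (fun g : Γ => g * x * g⁻¹) := DFn_gmul (DFn_gmul DFn_id (DFn_const x)) (DFn_ginv DFn_id)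
  have hr := a_GRC U H (H ⊓ Subgroup.centralizer {x}) (fun g => g * x * g⁻¹) hc.1 hL inf_le_left hφ
    (by
      intro a ha b hb
      rw [Subgroup.mem_inf, Subgroup.mem_centralizer_singleton_iff]
      constructor
      · intro h
        refine ⟨H.mul_mem (H.inv_mem ha) hb, ?_⟩
        have h2 : a⁻¹ * (a * x * a⁻¹) * b = a⁻¹ * (b * x * b⁻¹) * b := by
          have h' : a * x * a⁻¹ = b * x * b⁻¹ := h
          rw [h']
        have h3 : a⁻¹ * (a * x * a⁻¹) * b = x * (a⁻¹ * b) := by group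
        have h4 : a⁻¹ * (b * x * b⁻¹) * b = a⁻¹ * b * x := by group
        rw [← h3, ← h4, h2]
      · rintro ⟨-, h⟩
        show a * x * a⁻¹ = b * x * b⁻¹
        have h2 : a * (a⁻¹ * b * x) * b⁻¹ = a * (x * (a⁻¹ * b)) * b⁻¹ := by rw [h]
        have h3 : a * (a⁻¹ * b * x) * b⁻¹ = b * x * b⁻¹ := by group
        have h4 : a * (x * (a⁻¹ * b)) * b⁻¹ = a * x * a⁻¹ := by group
        rw [← h3, ← h4, h2])
  have hfin : ((fun g : Γ => g * x * g⁻¹) '' (H : Set Γ)).Finite := by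
    refine hf.subset ?_
    rintro _ ⟨g, hg, rfl⟩
    exact ⟨g, hg, rfl⟩
  have h0 : U.R ((fun g : Γ => g * x * g⁻¹) '' (H : Set Γ)) = 0 :=
    ((a_RKA U).fin (D_finite hfin) ⟨_, 1, H.one_mem, rfl⟩).2 hfin
  rw [h0, zero_add] at hr
  have h1 := hc.2 _ inf_le_left hL hr.le
  have h2 : g ∈ H ⊓ Subgroup.centralizer {x} := by rw [h1]; exact hg
  exact Subgroup.mem_centralizer_singleton_iff.1 (Subgroup.mem_inf.1 h2).2

theorem pf_IRR : T_IRR := by
  intro M U α _ _ X hX hne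
  by_contra hcon
  have key : ∀ Y : {Y : Set α // Y ⊆ X ∧ U.D Y ∧ Y.Nonempty ∧ U.R Y = U.R X},
      ∃ Z : Set α, ∃ Y' : {Y : Set α // Y ⊆ X ∧ U.D Y ∧ Y.Nonempty ∧ U.R Y = U.R X},
      Z ⊆ Y.1 ∧ Y'.1 ⊆ Y.1 ∧ U.D Z ∧ Z.Nonempty ∧ U.R X ≤ U.R Z ∧ Disjoint Z Y'.1 := by
    rintro ⟨Y, hYX, hY, hYn, hYr⟩
    by_contra h
    apply hcon
    refine ⟨Y, hYX, hY, hYn, hYr, ?_⟩
    intro Z Z' hZ hZ' dZ dZ' nZ nZ' rZ rZ'
    by_contra hd
    apply h
    refine ⟨Z, ⟨Z', hZ'.trans hYX, dZ', nZ', ?_⟩, hZ, hZ', dZ, nZ, hYr ▸ rZ, ?_⟩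
    · apply le_antisymm
      · exact (a_RKA U).mono dZ' hX nZ' (hZ'.trans hYX)
      · rw [← hYr]; exact rZ'
    · rw [Set.disjoint_iff_inter_eq_empty]
      exact Set.not_nonempty_iff_eq_empty.1 hd
  choose z nx h1 h2 h3 h4 h5 h6 using key
  let Y : ℕ → {Y : Set α // Y ⊆ X ∧ U.D Y ∧ Y.Nonempty ∧ U.R Y = U.R X} := fun n =>
    Nat.rec ⟨X, subset_refl _, hX, hne, rfl⟩ (fun _ Y => nx Y) n
  have hY : ∀ n, Y (n + 1) = nx (Y n) := fun n => rfl
  have hmono : ∀ i k, (Y (i + k)).1 ⊆ (Y i).1 := by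
    intro i k
    induction k with
    | zero => exact subset_refl _
    | succ k ih =>
      have : Y (i + (k + 1)) = nx (Y (i + k)) := hY (i + k)
      rw [this]
      exact (h2 _).trans ih
  have hdis : ∀ i j, i < j → Disjoint (z (Y i)) (z (Y j)) := by
    intro i j hij
    obtain ⟨k, rfl⟩ := Nat.exists_eq_add_of_lt hij
    have e : i + k + 1 = (i + 1) + k := by ring
    rw [e]
    refine (h6 (Y i)).mono_right ?_
    refine (h1 _).trans ?_
    exact hmono (i + 1) k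
  have := (a_RKA U).split (X := X) (n := U.R X) (fun i => z (Y i)) hX
    (fun i => ⟨h3 _, h4 _, (h1 _).trans (Y i).2.1, h5 _⟩)
    (fun i j hij => by
      rcases lt_or_gt_of_ne hij with h | h
      · exact hdis i j h
      · exact (hdis j i h).symm)
  omega

end Pool.Agent.H42.KG
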